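import Pool.Agent.D0H31.GT.DMc

namespace Pool.Agent.Results.MP_a57f33_nt.ClassGrowth

open Pool.Agent.H777R4.DM Pool.Agent.D0H31.GT

attribute [local instance 100] LieRing.ofAssociativeRing

/-- Let `L = Lie(x₀, x₁)` and let `γ_j` be the lower central series of `L' = [L, L]`. Let `g` be a
linear subspace of `dm₀(ℚ)` closed under the Ihara bracket which contains in each odd weight
`N ≥ 3` a homogeneous element with nonzero coefficient at `x₀^(N-1) x₁`. Then for every class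
`c ≥ 2` the weight `N` parts of `g ∩ γ_c(L')`, of `g`, of `dm₀(ℚ)` and of `L` have images in
`L / γ_{c+1}(L')` whose dimensions are all of the exact order `N^(2c-1)`. -/
theorem result (g : Submodule ℚ A) (hdm : ∀ ψ ∈ g, IsDM ψ)
    (hbr : ∀ ψ ∈ g, ∀ φ ∈ g, ihara ψ φ ∈ g)
    (hgen : ∀ N, Odd N → 3 ≤ N → ∃ σ ∈ g, σ ∈ homog N ∧
      co σ (List.replicate (N - 1) 0 ++ [1]) ≠ 0) (c : ℕ) (hc : 2 ≤ c) :
    ∃ B : ℝ, 0 < B ∧ ∃ N₀ : ℕ, ∀ N ≥ N₀,
      B * (N : ℝ) ^ (2 * c - 1) ≤ dimA c (g ⊓ gamA (c - 1)) N ∧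
      dimA c (g ⊓ gamA (c - 1)) N ≤ dimA c g N ∧
      dimA c g N ≤ dimA c dmSub N ∧
      dimA c dmSub N ≤ dimA c LieX.toSubmodule N ∧
      dimA c LieX.toSubmodule N ≤ c * N ^ (2 * c - 1) :=
  dm_growth g hdm hbr hgen c hc

end Pool.Agent.Results.MP_a57f33_nt.ClassGrowth
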