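import Pool.Agent.Results.MP_a57f33_nt.AlmostAllArguments
import Pool.Agent.Results.MP_03df5c_nt.RationalApproximations

/-!
# MP_a57f33_nt: relations between motivic multiple zeta values whose arguments are the numerators and the denominators of the
good rational approximations of a real vector

A pattern in `k` variables is a nonempty list of letters `b + u_1 s_1 + ... + u_k s_k`; at a tuple `s` of natural numbers
it gives an index. A lift of the real multiple zeta values is a function `Y` from the indices to a commutative `ℚ`-algebra `M`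
with a homomorphism `M → ℝ` which maps `Y(u)` to `ζ(u)`: for example the motivic multiple zeta values, with the period map. A
relation between the `Y(w_i(s))` is a consequence of the stuffle product and of Euler's formula if it holds for every function
`Z` from the indices to a commutative `ℚ`-algebra which satisfies the stuffle product formula and the relations
`Z(2 m) = c_m Z(2)^m`, where `c_m` is the rational number with `ζ(2 m) = c_m ζ(2)^m`. Both are consequences of the regularized
double shuffle relations.

Let `k ≥ 1` and `τ > 0`. A real vector `ξ = (ξ_1, ..., ξ_k)` is good if for ALL patterns `w_1, ..., w_r` in `k + 1` variables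
and ALL `D`, `C`, for all large `q` and ALL tuples `s = (q, p_1, ..., p_k)` of natural numbers with
`|ξ_j - p_j / q| ≤ q ^ (-τ)`, every polynomial relation of degree at most `D` with integer coefficients at most `C ^ q` between
the values `Y(w_i(s))` of a lift `Y` is a consequence.

Theorem. (1) All `ξ` with positive coordinates but a set of Hausdorff dimension at most `k / τ` (for `τ > 1` almost all `ξ`)
are good, where consequence means: of the stuffle product and of Euler's formula, if all the constant first letters are equal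
and even, in each pattern (or there are none); of the stuffle product and of the relations between the real multiple zeta values
of the (finitely many) constant fronts, for arbitrary patterns.

(2) Conversely the condition on the fronts is necessary. Let `Y` and `Z` be functions from the indices to commutative
`ℚ`-algebras with the stuffle product, where the algebra of `Z` is a domain and `Z(s) ≠ 0` for all large odd `s`; for example
the motivic multiple zeta values and the formal ones, defined by the regularized double shuffle relations (by a theorem of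
Racinet their algebra is a polynomial algebra). Then the following are equivalent: (a) all polynomial relations between the
values of `Y` hold for `Z` (for the example this is the question); (b) for all `k ≥ 1`, `τ > 0` and all `ξ` but a set of
dimension at most `k / τ` (almost all, for `τ > 1`) the relations between the values of `Y` at the patterns at the tuples above
hold for `Z`; (c) for all patterns in one variable with exactly one letter which is not constant, `s + b`, and all `C` there is
ONE irrational number `ξ > 0` such that for all large `q` and all `p` coprime to `q` with `|ξ - p / q| < 1 / q ^ 2` the relations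
of degree one with integer coefficients at most `C ^ q` between the values of `Y` of the patterns at `q` and at `p` hold for
`Z`.

The starting file `AlmostAllArguments` bounds the number of the exceptional tuples in `[N, κ N] ^ k` by `K N ^ (k - 1)` and has
no converse. The proof of (2) is that of `Pool.Agent.N734.MZ.back` (starting library) for arbitrary `Y`.
-/

set_option autoImplicit false

open Set Filter MeasureTheory
open scoped ENNReal

namespace Pool.Agent.Results.MP_a57f33_nt.RationalApproximations

open Pool.Agent.Results.MP_03df5c_nt.AlmostAllArguments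
  (mzv Admissible Letter index AdmissiblePattern fronts EvenFront OneLarge HasStuffle Transfers Few st_iff adm_iff)
open Pool.Agent.Results.MP_03df5c_nt.RationalApproximations (Good Metric metric_of_few lift index_lift admissible_lift)
open AlmostAllArguments (Lift EulerFormula NotConsequence index_admissible)
open Pool.Agent.X90.DB (Ad ex ex_nil ex_ne ad_ne ad_sti ix)
open Pool.Agent.Y760.ZF
open Pool.Agent.X90.DC
open Pool.Agent.N734.MZ (St lin Sl One ins_ge ins_one ins_sum sum_flat)

/-- a polynomial relation of degree at most `D` with integer coefficients of absolute value at most `H` between the values of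
`Y` at the indices `w_i(s)` fails for `Z` -/
def Fails {k r : ℕ} (w : Fin r → List (Letter k)) (D : ℕ) (H : ℝ) {M A : Type} [CommRing M] [CommRing A]
    (Y : List ℕ → M) (Z : List ℕ → A) (s : Fin k → ℕ) : Prop :=
  ∃ P : MvPolynomial (Fin r) ℤ, P.totalDegree ≤ D ∧ (∀ m, |((P.coeff m : ℤ) : ℝ)| ≤ H) ∧
    MvPolynomial.aeval (fun i => Y (index s (w i))) P = 0 ∧ MvPolynomial.aeval (fun i => Z (index s (w i))) P ≠ 0

/-- statement (a): all polynomial relations with rational coefficients between the values of `Y` at the admissible indices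
hold for `Z` -/
def AllRelations {M A : Type} [CommRing M] [Algebra ℚ M] [CommRing A] [Algebra ℚ A] (Y : List ℕ → M) (Z : List ℕ → A) :
    Prop :=
  ∀ f : MvPolynomial {u : List ℕ // Admissible u} ℚ,
    MvPolynomial.aeval (fun u => Y u.1) f = 0 → MvPolynomial.aeval (fun u => Z u.1) f = 0

/-- statement (b) -/
def AllVectors {M A : Type} [CommRing M] [CommRing A] (Y : List ℕ → M) (Z : List ℕ → A) : Prop :=
  ∀ k : ℕ, 1 ≤ k → Metric (k := k) fun _ w D H s => Fails w D H Y Z s

/-- statement (c): for all patterns in one variable with exactly one letter which is not constant, `s + b`, and all `C` there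
is an irrational number `ξ > 0` such that for all large `q` and all `p` coprime to `q` with `|ξ - p / q| < 1 / q ^ 2` no
relation of degree one with integer coefficients at most `C ^ q` between the values of `Y` of the patterns at `q`, or at `p`,
fails for `Z` -/
def OneNumber {M A : Type} [CommRing M] [CommRing A] (Y : List ℕ → M) (Z : List ℕ → A) : Prop :=
  ∀ (r : ℕ) (w : Fin r → List (Letter 1)), (∀ i, AdmissiblePattern (w i) ∧ OneLarge (w i)) → ∀ C : ℝ,
    ∃ ξ : ℝ, Irrational ξ ∧ 0 < ξ ∧ ∀ᶠ q : ℕ in atTop, ∀ p : ℕ, p.Coprime q → |ξ - p / q| < 1 / (q : ℝ) ^ 2 →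
      ¬ Fails w 1 (C ^ q) Y Z (fun _ => q) ∧ ¬ Fails w 1 (C ^ q) Y Z (fun _ => p)

/-- **relations with one large argument and bounded coefficients are enough** (`Pool.Agent.N734.MZ.back` for arbitrary `Y`) -/
theorem back {σ : Type} (g : σ → List ℕ) (hg : ∀ i, Ad (g i)) (M : Type) [CommRing M] [Algebra ℚ M] (Y : List ℕ → M)
    (hY : St Y) (A : Type) [CommRing A] [IsDomain A] [Algebra ℚ A] (Z : List ℕ → A) (hZ : St Z) (s0 : ℕ)
    (hne : ∀ s, s0 ≤ s → Odd s → Z [s] ≠ 0)
    (hc : ∀ (r : ℕ) (w : Fin r → List (Lr 1)), (∀ i, Ge (w i) ∧ One (w i)) → ∀ B s1 : ℕ,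
      ∃ s, s1 ≤ s ∧ Odd s ∧ ∀ a : Fin r → ℤ, (∀ i, |a i| ≤ B) →
        ∑ i, (a i : M) * Y (ix (fun _ => s) (w i)) = 0 → ∑ i, (a i : A) * Z (ix (fun _ => s) (w i)) = 0)
    (f : MvPolynomial σ ℚ) (hf : MvPolynomial.aeval (fun i => Y (g i)) f = 0) :
    MvPolynomial.aeval (fun i => Z (g i)) f = 0 := by
  obtain ⟨d, hd, c0, L, hL, hlin⟩ := lin g hg f
  set L0 : List (ℤ × List ℕ) := (c0, []) :: L with hL0
  have hL0' : ∀ e ∈ L0, e.2 = [] ∨ Ad e.2 := by
    intro e he
    rw [hL0, List.mem_cons] at he
    rcases he with rfl | he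
    · exact Or.inl rfl
    · exact Or.inr (hL e he)
  set L1 : List (ℤ × List (Lr 1)) := L0.flatMap fun e => (psti (fp e.2) [Sl]).map fun x => (e.1, x) with hL1
  have hL1' : ∀ e ∈ L1, Ge e.2 ∧ One e.2 := by
    intro e he
    rw [hL1, List.mem_flatMap] at he
    obtain ⟨e', he', hx⟩ := he
    rw [List.mem_map] at hx
    obtain ⟨x, hx, rfl⟩ := hx
    exact ⟨ins_ge _ (hL0' e' he') x hx, ins_one _ x hx⟩
  have key : ∀ (A : Type) [CommRing A] [Algebra ℚ A] (Z : List ℕ → A), St Z → ∀ s, 2 ≤ s →
      ∑ i : Fin L1.length, ((L1.get i).1 : A) * Z (ix (fun _ => s) (L1.get i).2) =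
        (d : A) * MvPolynomial.aeval (fun i => Z (g i)) f * Z [s] := by
    intro A _ _ Z hZ s hs
    rw [← sum_list L1 fun e => (e.1 : A) * Z (ix (fun _ => s) e.2), hL1, sum_flat, hlin A Z hZ]
    have h2 : ∀ e ∈ L0, (((psti (fp e.2) [Sl]).map fun x => (e.1, x)).map
        fun e : ℤ × List (Lr 1) => (e.1 : A) * Z (ix (fun _ => s) e.2)).sum =
          (e.1 : A) * (ex Z e.2 * Z [s]) := by
      intro e he
      rw [← ins_sum Z hZ s hs e.2 (hL0' e he), ← List.sum_map_mul_left, List.map_map]
      rfl
    rw [List.map_congr_left h2, hL0, List.map_cons, List.sum_cons, ex_nil, add_mul, one_mul,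
      ← List.sum_map_mul_right]
    congr 2
    refine List.map_congr_left fun e he => ?_
    rw [ex_ne Z (ad_ne (hL e he)), mul_assoc]
  obtain ⟨s, hs1, hs2, hs3⟩ := hc L1.length (fun i => (L1.get i).2) (fun i => hL1' _ (List.get_mem _ _))
    (∑ i : Fin L1.length, (L1.get i).1.natAbs) (s0 + 2)
  have h3 := hs3 (fun i => (L1.get i).1) (fun i => by
    have h4 : (L1.get i).1.natAbs ≤ ∑ i : Fin L1.length, (L1.get i).1.natAbs :=
      Finset.single_le_sum (f := fun i : Fin L1.length => (L1.get i).1.natAbs) (fun _ _ => Nat.zero_le _)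
        (Finset.mem_univ i)
    rw [Int.abs_eq_natAbs]
    exact_mod_cast h4) (by
    rw [key M Y hY s (by omega), hf, mul_zero, zero_mul])
  rw [key A Z hZ s (by omega)] at h3
  rcases mul_eq_zero.1 h3 with h4 | h4
  · rcases mul_eq_zero.1 h4 with h5 | h5
    · exfalso
      have h6 : algebraMap ℚ A (d : ℚ) = 0 := by rw [map_natCast, h5]
      have h7 : (d : ℚ) = 0 := (algebraMap ℚ A).injective (by rw [h6, map_zero])
      have h8 : d = 0 := by exact_mod_cast h7
      omega
    · exact h5
  · exact absurd h4 (hne s (by omega) hs2)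

lemma fails_mono {k r : ℕ} (w : Fin r → List (Letter k)) (D : ℕ) {M A : Type} [CommRing M] [CommRing A]
    (Y : List ℕ → M) (Z : List ℕ → A) (H H' : ℝ) (s : Fin k → ℕ) (h : H ≤ H') (hB : Fails w D H Y Z s) :
    Fails w D H' Y Z s := by
  obtain ⟨P, h1, h2, h3, h4⟩ := hB
  exact ⟨P, h1, fun m => (h2 m).trans h, h3, h4⟩

lemma not_mono {k r : ℕ} (w : Fin r → List (Letter k)) (D : ℕ)
    (F : ∀ (A : Type) [CommRing A] [Algebra ℚ A], (List ℕ → A) → Prop) (H H' : ℝ) (s : Fin k → ℕ) (h : H ≤ H')
    (hB : NotConsequence w D F H s) : NotConsequence w D F H' s := by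
  obtain ⟨M, i1, i2, Y, A, i3, i4, Z, hY, hZ, hF, P, h1, h2, h3, h4⟩ := hB
  exact ⟨M, i1, i2, Y, A, i3, i4, Z, hY, hZ, hF, P, h1, fun m => (h2 m).trans h, h3, h4⟩

lemma not_fails {k r : ℕ} (w : Fin r → List (Letter k)) (hw : ∀ i, AdmissiblePattern (w i)) (D : ℕ) (H : ℝ)
    {M A : Type} [CommRing M] [Algebra ℚ M] [CommRing A] [Algebra ℚ A] (Y : List ℕ → M) (Z : List ℕ → A)
    (h : AllRelations Y Z) (s : Fin k → ℕ) (hs : ∀ j, 2 ≤ s j) : ¬ Fails w D H Y Z s := by
  rintro ⟨P, -, -, h3, h4⟩
  let ρ : Fin r → {u : List ℕ // Admissible u} := fun i => ⟨index s (w i), index_admissible s hs (w i) (hw i)⟩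
  have h1 : ∀ (B : Type) [CommRing B] [Algebra ℚ B] (X : List ℕ → B),
      MvPolynomial.aeval (fun u : {u : List ℕ // Admissible u} => X u.1)
        (MvPolynomial.map (algebraMap ℤ ℚ) (MvPolynomial.rename ρ P)) =
      MvPolynomial.aeval (fun i => X (index s (w i))) P := by
    intro B _ _ X
    rw [MvPolynomial.aeval_map_algebraMap, MvPolynomial.aeval_rename]
    rfl
  refine h4 ?_
  rw [← h1 A Z]
  refine h _ ?_
  rw [h1 M Y]
  exact h3

lemma all_of_relations {M A : Type} [CommRing M] [Algebra ℚ M] [CommRing A] [Algebra ℚ A] (Y : List ℕ → M)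
    (Z : List ℕ → A) (h : AllRelations Y Z) : AllVectors Y Z := fun k hk =>
  metric_of_few hk (fun _ w D H H' s => fails_mono w D Y Z H H' s) (fun r w hw D κ => by
    refine ⟨0, fun C => ⟨2, fun N hN => ?_⟩⟩
    have hempty : {s : Fin (k + 1) → ℕ | (∀ j, N ≤ s j ∧ s j ≤ κ * N) ∧ Fails w D (C ^ N) Y Z s} = ∅ := by
      ext s
      simp only [Set.mem_setOf_eq, Set.mem_empty_iff_false, iff_false]
      exact fun hs => not_fails w hw D _ Y Z h s (fun j => le_trans hN (hs.1 j).1) hs.2
    rw [hempty, Set.ncard_empty]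
    exact Nat.zero_le _)

lemma fails_lift {M A : Type} [CommRing M] [CommRing A] (Y : List ℕ → M) (Z : List ℕ → A) {r : ℕ}
    (w : Fin r → List (Letter 1)) (i : Fin 2) (D : ℕ) (H : ℝ) (s : Fin 2 → ℕ) (h : Fails w D H Y Z (fun _ => s i)) :
    Fails (fun j => lift i (w j)) D H Y Z s := by
  obtain ⟨P, h1, h2, h3, h4⟩ := h
  refine ⟨P, h1, h2, ?_, ?_⟩
  · simpa only [index_lift] using h3
  · simpa only [index_lift] using h4

lemma one_of_all {M A : Type} [CommRing M] [CommRing A] (Y : List ℕ → M) (Z : List ℕ → A) (h : AllVectors Y Z) :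
    OneNumber Y Z := by
  intro r w hw C
  have h1 := (h 1 le_rfl (3 / 2) (by norm_num)).2 (by norm_num)
  obtain ⟨ξ, h4, h5, h6⟩ := (Pool.Agent.D0H63.MR.frequently_pos.and_eventually
    (Pool.Agent.D0H63.MR.ae_irrational.and h1)).exists
  refine ⟨ξ 0, h5, h4 0, ?_⟩
  have h7 := h6 h4 r (fun j => lift 0 (w j)) (fun j => admissible_lift 0 (hw j).1) 1 C
  have h8 := h6 h4 r (fun j => lift 1 (w j)) (fun j => admissible_lift 1 (hw j).1) 1 C
  filter_upwards [h7, h8, eventually_ge_atTop 1] with q hq1 hq2 hq p _ hpq
  have h9 : ∀ j : Fin 1, |ξ j - ((![q, p] : Fin 2 → ℕ) j.succ : ℕ) / (q : ℝ)| ≤ (q : ℝ) ^ (-(3 / 2 : ℝ)) := by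
    intro j
    rw [Subsingleton.elim j 0]
    exact (hpq.le).trans (Pool.Agent.D0H63.MR.rpow_of_sq hq)
  exact ⟨fun hb => hq1 ![q, p] rfl h9 (fails_lift Y Z w 0 1 _ ![q, p] hb),
    fun hb => hq2 ![q, p] rfl h9 (fails_lift Y Z w 1 1 _ ![q, p] hb)⟩

/-- a linear relation which fails for `Z` -/
lemma fails_of_linear {k r : ℕ} (w : Fin r → List (Letter k)) {M A : Type} [CommRing M] [CommRing A] (Y : List ℕ → M)
    (Z : List ℕ → A) (s : Fin k → ℕ) (B : ℕ) (H : ℝ) (hB1 : (B : ℝ) ≤ H) (a : Fin r → ℤ) (ha : ∀ i, |a i| ≤ B)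
    (hR : ∑ i, (a i : M) * Y (index s (w i)) = 0) (hA : ∑ i, (a i : A) * Z (index s (w i)) ≠ 0) :
    Fails w 1 H Y Z s := by
  classical
  refine ⟨∑ i, MvPolynomial.C (a i) * MvPolynomial.X i, ?_, fun m => ?_, ?_, ?_⟩
  · refine MvPolynomial.totalDegree_finsetSum_le fun i _ => ?_
    refine (MvPolynomial.totalDegree_mul _ _).trans ?_
    rw [MvPolynomial.totalDegree_C, zero_add]
    exact (MvPolynomial.totalDegree_X _).le
  · rw [MvPolynomial.coeff_sum]
    simp only [MvPolynomial.coeff_C_mul, MvPolynomial.coeff_X]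
    refine le_trans ?_ hB1
    by_cases hm : ∃ i, Finsupp.single i 1 = m
    · obtain ⟨i₀, rfl⟩ := hm
      have h4 : ∑ x, a x * (if Finsupp.single x 1 = Finsupp.single i₀ 1 then (1 : ℤ) else 0) = a i₀ := by
        rw [Finset.sum_eq_single i₀]
        · rw [if_pos rfl, mul_one]
        · intro x _ hx
          rw [if_neg, mul_zero]
          intro h5
          exact hx ((Finsupp.single_left_inj one_ne_zero).1 h5)
        · intro h5
          exact absurd (Finset.mem_univ _) h5
      rw [h4]
      exact_mod_cast ha i₀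
    · have h4 : ∑ x, a x * (if Finsupp.single x 1 = m then (1 : ℤ) else 0) = 0 := by
        refine Finset.sum_eq_zero fun x _ => ?_
        rw [if_neg fun h5 => hm ⟨x, h5⟩, mul_zero]
      rw [h4, Int.cast_zero, abs_zero]
      exact Nat.cast_nonneg _
  · rw [map_sum]
    refine Eq.trans (Finset.sum_congr rfl fun i _ => ?_) hR
    rw [map_mul, MvPolynomial.aeval_C, MvPolynomial.aeval_X]
    rfl
  · rw [map_sum]
    intro h5
    refine hA (Eq.trans (Finset.sum_congr rfl fun i _ => ?_) h5)
    rw [map_mul, MvPolynomial.aeval_C, MvPolynomial.aeval_X]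
    rfl

lemma relations_of_one {M A : Type} [CommRing M] [Algebra ℚ M] [CommRing A] [IsDomain A] [Algebra ℚ A] (Y : List ℕ → M)
    (Z : List ℕ → A) (hY : HasStuffle Y) (hZ : HasStuffle Z) (s₀ : ℕ) (hne : ∀ s, s₀ ≤ s → Odd s → Z [s] ≠ 0)
    (h : OneNumber Y Z) : AllRelations Y Z := by
  intro f hf
  refine back (fun u : {u : List ℕ // Admissible u} => u.1) (fun u => (adm_iff u.1).1 u.2) M Y ((st_iff Y).1 hY) A Z
    ((st_iff Z).1 hZ) s₀ hne ?_ f hf
  intro r w hw B s₁
  have hw' : ∀ i, AdmissiblePattern (w i) ∧ OneLarge (w i) := by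
    intro i
    refine ⟨⟨?_, (hw i).1⟩, (hw i).2⟩
    obtain ⟨p, b, q, h4⟩ := (hw i).2
    rw [h4]
    simp
  obtain ⟨ξ, hξ, h0, h1⟩ := h r w hw' (B + 1 : ℝ)
  obtain ⟨N₀, hN₀⟩ := eventually_atTop.1 h1
  obtain ⟨p, q, h2, h3, h4, h5, h6, h7⟩ := Pool.Agent.D0H63.MR.exists_odd hξ h0 (N₀ + s₁)
  obtain ⟨h8, h9⟩ := hN₀ q (by omega) p h5 h6
  have hB : (B : ℝ) ≤ (B + 1 : ℝ) ^ q := by
    have h3 : (B + 1 : ℝ) ^ 1 ≤ (B + 1 : ℝ) ^ q :=
      pow_le_pow_right₀ (by have := Nat.cast_nonneg (α := ℝ) B; linarith) (by omega)
    rw [pow_one] at h3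
    linarith
  rcases h7 with hodd | hodd
  · refine ⟨q, by omega, hodd, fun a ha hR => ?_⟩
    by_contra hA
    exact h8 (fails_of_linear w Y Z (fun _ => q) B _ hB a ha hR hA)
  · refine ⟨p, by omega, hodd, fun a ha hR => ?_⟩
    by_contra hA
    exact h9 (fails_of_linear w Y Z (fun _ => p) B _ hB a ha hR hA)

/-- **Theorem.** (1) Let `k ≥ 1` and `τ > 0`. For all real vectors `ξ = (ξ_1, ..., ξ_k)` with positive coordinates but a set of
Hausdorff dimension at most `k / τ` (and for almost all of them if `τ > 1`): for all admissible patterns `w_1, ..., w_r` in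
`k + 1` variables, all `D` and `C`, for all large `q` and all tuples `s = (q, p_1, ..., p_k)` with
`|ξ_j - p_j / q| ≤ q ^ (-τ)`, no polynomial relation of degree at most `D` with integer coefficients at most `C ^ q` between the
values `Y(w_i(s))` of a lift `Y` of the real multiple zeta values (for example the motivic ones) fails for a family `Z` with the
stuffle product and Euler's formula, if all constant first letters of each pattern are equal and even; and for a family with
the stuffle product and the relations between the real multiple zeta values of the fronts, for arbitrary patterns. (2) Let `Y`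
and `Z` have the stuffle product, the algebra of `Z` be a domain and `Z(s) ≠ 0` for all large odd `s`. The following are
equivalent: all polynomial relations between the values of `Y` hold for `Z`; `AllVectors Y Z`; `OneNumber Y Z`. -/
theorem result :
    (∀ k : ℕ, 1 ≤ k →
      Metric (k := k) (fun _ w D H s => (∀ i, EvenFront (w i)) ∧
        NotConsequence w D (fun _ _ _ Z => EulerFormula Z) H s) ∧
      Metric (k := k) (fun _ w D => NotConsequence w D fun _ _ _ Z => Transfers (fronts w) Z)) ∧
    ∀ (M A : Type) [CommRing M] [Algebra ℚ M] [CommRing A] [IsDomain A] [Algebra ℚ A] (Y : List ℕ → M) (Z : List ℕ → A),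
      HasStuffle Y → HasStuffle Z → (∃ s₀, ∀ s, s₀ ≤ s → Odd s → Z [s] ≠ 0) →
      (AllRelations Y Z ↔ AllVectors Y Z) ∧ (AllVectors Y Z ↔ OneNumber Y Z) := by
  refine ⟨fun k hk => ⟨?_, ?_⟩, ?_⟩
  · refine metric_of_few hk (fun _ w D H H' s hH hb => ⟨hb.1, not_mono w D _ H H' s hH hb.2⟩)
      (fun r w hw D κ => ?_)
    by_cases he : ∀ i, EvenFront (w i)
    · exact ((AlmostAllArguments.result _ r w hw D κ).1 he).mono fun H s hb => hb.2
    · refine ⟨0, fun C => ⟨0, fun N _ => ?_⟩⟩
      have hempty : {s : Fin (k + 1) → ℕ | (∀ j, N ≤ s j ∧ s j ≤ κ * N) ∧ (∀ i, EvenFront (w i)) ∧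
          NotConsequence w D (fun _ _ _ Z => EulerFormula Z) (C ^ N) s} = ∅ := by
        ext s
        simp only [Set.mem_setOf_eq, Set.mem_empty_iff_false, iff_false]
        exact fun hs => he hs.2.1
      rw [hempty, Set.ncard_empty]
      exact Nat.zero_le _
  · exact metric_of_few hk (fun _ w D H H' s => not_mono w D _ H H' s)
      (fun r w hw D κ => (AlmostAllArguments.result _ r w hw D κ).2)
  · intro M A _ _ _ _ _ Y Z hY hZ hs
    obtain ⟨s₀, hne⟩ := hs
    have hback : OneNumber Y Z → AllRelations Y Z := relations_of_one Y Z hY hZ s₀ hne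
    exact ⟨⟨all_of_relations Y Z, fun h => hback (one_of_all Y Z h)⟩,
      ⟨one_of_all Y Z, fun h => all_of_relations Y Z (hback h)⟩⟩

end Pool.Agent.Results.MP_a57f33_nt.RationalApproximations
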