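import Pool.Agent.D0H5.CS.Thin
import Pool.Agent.Results.MP_a57f33_nt.RationalApproximations

/-!
# MP_a57f33_nt: relations between motivic multiple zeta values at the values of compositions of arithmetic functions follow
# from the stuffle product and Euler's formula

A pattern in `k` variables is a nonempty list of letters `b + u_1 s_1 + ... + u_k s_k`; at a tuple `s` of natural numbers
it gives an index. A lift of the real multiple zeta values is a function `Y` from the indices to a commutative `ℚ`-algebra `M`
with a homomorphism `M → ℝ` which maps `Y(u)` to `ζ(u)`: for example the motivic multiple zeta values, with the period map. A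
relation between the `Y(w_i(s))` is a consequence of the stuffle product and of Euler's formula if it holds for every function
`Z` from the indices to a commutative `ℚ`-algebra which satisfies the stuffle product formula and the relations
`Z(2 m) = c_m Z(2)^m`, where `c_m` is the rational number with `ζ(2 m) = c_m ζ(2)^m`. Both are consequences of the regularized
double shuffle relations.

Let `F_1, ..., F_k` be arbitrary compositions of functions of the class `LM` (positive multiplicative functions of at most
polynomial growth with `f p ≤ M p` for the large primes `p` and different values at different large primes), for example the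
iterates of Euler's function, or `φ(σ(φ(m)))`, and let `0 ≤ θ`, `k θ < 1`.

Theorem. (1) Let `w_1, ..., w_r` be admissible patterns for which all the constant first letters are equal and even, in each
pattern (or there are none). For all large `N`, for all but `N ^ k / (log N) ^ U` of the `m ∈ [1, N] ^ k`, for ALL tuples `s`
near the tuple of the values, `|s_i - F_i(m_i)| ≤ F_i(m_i) ^ θ`, in a cone `T ≤ s_i ≤ κ T`, every polynomial relation of degree
at most `D` with integer coefficients at most `C ^ T` between the values `Y(w_i(s))` of a lift `Y` is a consequence of the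
stuffle product and of Euler's formula. For arbitrary admissible patterns it is a consequence of the stuffle product and of the
relations between the real multiple zeta values of the (finitely many) constant fronts.

(2) Conversely, let `Y` and `Z` be functions from the indices to commutative `ℚ`-algebras with the stuffle product, where the
algebra of `Z` is a domain and `Z(s) ≠ 0` for all large odd `s`; for example the motivic multiple zeta values and the formal
ones, defined by the regularized double shuffle relations. Then the following are equivalent: (a) all polynomial relations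
between the values of `Y` hold for `Z` (for the example this is the question); (b) for all patterns and all compositions the
relations between the values of `Y` at the patterns at the tuples above hold for `Z`; (c) for ANY fixed number `t`: for all
patterns in one variable with exactly one letter which is not constant, `s + b`, for all but at most `N / log N` of the `m ≤ N`,
the relations of degree one with integer coefficients at most `2 ^ s` between the values of `Y` hold for `Z` for all `s` with
`|s - v| ≤ v ^ (1/2)`, where `v` is the `t`-fold iterate `φ(φ(...φ(m)...))`.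

The values of compositions form thin sets and are taken with very large multiplicities: this does not follow from the count of
the exceptional tuples, at most `K N ^ (k - 1)` in `[N, κ N] ^ k`, in the starting file `AlmostAllArguments`, which is used. The
starting file `CarmichaelMultiples` is about the multiples of one multiplicative function. The tool for compositions is
`Pool.Agent.D0H71.CM`.
-/

set_option autoImplicit false

namespace Pool.Agent.Results.MP_a57f33_nt.CompositionValues

open Pool.Agent.N733.TG (LM lm_totient lm_sigma)
open Pool.Agent.D0H71.CM (Comp)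
open Pool.Agent.D0H5.CS (ThinNear thin_of_count odd_of_thin comp_comp comp_iter)
open Pool.Agent.Results.MP_03df5c_nt.AlmostAllArguments
  (mzv Admissible Letter index AdmissiblePattern fronts EvenFront OneLarge HasStuffle Transfers Few st_iff adm_iff)
open AlmostAllArguments (Lift EulerFormula NotConsequence)
open RationalApproximations (Fails AllRelations back fails_mono not_mono not_fails fails_of_linear)
open Pool.Agent.X90.DC
open Pool.Agent.N734.MZ (One)

/-- statement (b): for all patterns in `k ≥ 1` variables and all compositions `F_i` of functions with `LM`, the relations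
between the values of `Y` at the tuples near the tuples of the values of the `F_i` hold for `Z`, up to a thin set -/
def AllCompositions {M A : Type} [CommRing M] [CommRing A] (Y : List ℕ → M) (Z : List ℕ → A) : Prop :=
  ∀ (k r : ℕ), 1 ≤ k → ∀ w : Fin r → List (Letter k), (∀ i, AdmissiblePattern (w i)) → ∀ (D κ : ℕ) (C : ℝ)
    (F : Fin k → ℕ → ℕ), (∀ i, Comp (F i)) → ∀ θ : ℝ, 0 ≤ θ → k * θ < 1 → ∀ U : ℕ,
    ThinNear κ C F θ U (fun H s => Fails w D H Y Z s)

/-- statement (c): the same for the patterns in one variable with exactly one letter which is not constant, `s + b`, the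
`t`-fold iterate of Euler's function, relations of degree one, `κ = 1`, `C = 2`, `θ = 1 / 2` and `U = 1` -/
def NearIterates (t : ℕ) {M A : Type} [CommRing M] [CommRing A] (Y : List ℕ → M) (Z : List ℕ → A) : Prop :=
  ∀ (r : ℕ) (w : Fin r → List (Letter 1)), (∀ i, AdmissiblePattern (w i) ∧ OneLarge (w i)) →
    ThinNear 1 2 (fun _ => Nat.totient^[t]) (1 / 2) 1 (fun H s => Fails w 1 H Y Z s)

lemma all_of_relations {M A : Type} [CommRing M] [Algebra ℚ M] [CommRing A] [Algebra ℚ A] (Y : List ℕ → M)
    (Z : List ℕ → A) (h : AllRelations Y Z) : AllCompositions Y Z := by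
  intro k r hk w hw D κ C F hF θ hθ hθk U
  refine thin_of_count hk κ C hF hθ hθk U (fun H H' s => fails_mono w D Y Z H H' s) ⟨0, fun C => ⟨2, fun N hN => ?_⟩⟩
  have hempty : {s : Fin k → ℕ | (∀ j, N ≤ s j ∧ s j ≤ (2 * κ) * N) ∧ Fails w D (C ^ N) Y Z s} = ∅ := by
    ext s
    simp only [Set.mem_setOf_eq, Set.mem_empty_iff_false, iff_false]
    exact fun hs => not_fails w hw D _ Y Z h s (fun j => le_trans hN (hs.1 j).1) hs.2
  rw [hempty, Set.ncard_empty]
  exact Nat.zero_le _

lemma near_of_all {M A : Type} [CommRing M] [CommRing A] (Y : List ℕ → M) (Z : List ℕ → A) (h : AllCompositions Y Z)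
    (t : ℕ) : NearIterates t Y Z := by
  intro r w hw
  exact h 1 r le_rfl w (fun i => (hw i).1) 1 1 2 (fun _ => Nat.totient^[t]) (fun _ => comp_iter lm_totient t) (1 / 2)
    (by norm_num) (by norm_num) 1

lemma relations_of_near {M A : Type} [CommRing M] [Algebra ℚ M] [CommRing A] [IsDomain A] [Algebra ℚ A] (Y : List ℕ → M)
    (Z : List ℕ → A) (hY : HasStuffle Y) (hZ : HasStuffle Z) (s₀ : ℕ) (hne : ∀ s, s₀ ≤ s → Odd s → Z [s] ≠ 0)
    {t : ℕ} (h : NearIterates t Y Z) : AllRelations Y Z := by
  intro f hf
  refine back (fun u : {u : List ℕ // Admissible u} => u.1) (fun u => (adm_iff u.1).1 u.2) M Y ((st_iff Y).1 hY) A Z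
    ((st_iff Z).1 hZ) s₀ hne ?_ f hf
  intro r w hw B s₁
  have hw' : ∀ i, AdmissiblePattern (w i) ∧ OneLarge (w i) := by
    intro i
    refine ⟨⟨?_, (hw i).1⟩, (hw i).2⟩
    obtain ⟨p, b, q, h4⟩ := (hw i).2
    rw [h4]
    simp
  obtain ⟨s, h1, h2, h3⟩ := odd_of_thin (h r w hw') (s₁ + B)
  refine ⟨s, by omega, h2, fun a ha hR => ?_⟩
  by_contra hA
  refine h3 (fails_of_linear w Y Z (fun _ => s) B _ ?_ a ha hR hA)
  have h4 : B ≤ 2 ^ s := by
    have h5 : s < 2 ^ s := Nat.lt_two_pow_self
    omega
  exact_mod_cast h4

/-- **Theorem.** (1) Let `w_1, ..., w_r` be admissible patterns in `k ≥ 1` variables, `D`, `κ` natural numbers, `C` a real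
number, `F_1, ..., F_k` compositions of functions with `LM`, `θ ≥ 0`, `k θ < 1`, and `U` a natural number. For all large `N`,
for all but `N ^ k / (log N) ^ U` of the `m ∈ [1, N] ^ k`, for all tuples `s` with `|s_i - F_i(m_i)| ≤ F_i(m_i) ^ θ` and
`T ≤ s_i ≤ κ T`, every polynomial relation of degree at most `D` with integer coefficients at most `C ^ T` between the values
`Y(w_i(s))` of a lift `Y` of the real multiple zeta values (for example the motivic ones) holds for all families with the
stuffle product and Euler's formula, if all constant first letters of each pattern are equal and even; for arbitrary patterns it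
holds for all families with the stuffle product and the relations between the real multiple zeta values of the fronts. (2) Let
`Y` and `Z` have the stuffle product, the algebra of `Z` be a domain and `Z(s) ≠ 0` for all large odd `s`. The following are
equivalent: all polynomial relations between the values of `Y` hold for `Z`; `AllCompositions Y Z`; `NearIterates t Y Z`, for any
fixed `t`. (3) Euler's function and the sum of the divisors satisfy `LM`; the iterates of a function with `LM` and the
compositions of compositions are compositions. -/
theorem result :
    (∀ (k r : ℕ), 1 ≤ k → ∀ w : Fin r → List (Letter k), (∀ i, AdmissiblePattern (w i)) → ∀ (D κ : ℕ) (C : ℝ)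
      (F : Fin k → ℕ → ℕ), (∀ i, Comp (F i)) → ∀ θ : ℝ, 0 ≤ θ → k * θ < 1 → ∀ U : ℕ,
      ((∀ i, EvenFront (w i)) → ThinNear κ C F θ U (NotConsequence w D fun _ _ _ Z => EulerFormula Z)) ∧
      ThinNear κ C F θ U (NotConsequence w D fun _ _ _ Z => Transfers (fronts w) Z)) ∧
    (∀ (M A : Type) [CommRing M] [Algebra ℚ M] [CommRing A] [IsDomain A] [Algebra ℚ A] (Y : List ℕ → M) (Z : List ℕ → A),
      HasStuffle Y → HasStuffle Z → (∃ s₀, ∀ s, s₀ ≤ s → Odd s → Z [s] ≠ 0) →
      (AllRelations Y Z ↔ AllCompositions Y Z) ∧ ∀ t : ℕ, (AllCompositions Y Z ↔ NearIterates t Y Z)) ∧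
    (LM Nat.totient ∧ LM (fun m => ∑ d ∈ m.divisors, d)) ∧
    (∀ f : ℕ → ℕ, LM f → ∀ t : ℕ, Comp (f^[t])) ∧
    (∀ F G : ℕ → ℕ, Comp F → Comp G → Comp (fun m => F (G m))) := by
  refine ⟨fun k r hk w hw D κ C F hF θ hθ hθk U => ⟨fun he => ?_, ?_⟩, ?_, ⟨lm_totient, lm_sigma⟩,
    fun f hf t => comp_iter hf t, fun F G hF hG => comp_comp hF hG⟩
  · exact thin_of_count hk κ C hF hθ hθk U (fun H H' s => not_mono w D _ H H' s)
      ((AlmostAllArguments.result k r w hw D (2 * κ)).1 he)
  · exact thin_of_count hk κ C hF hθ hθk U (fun H H' s => not_mono w D _ H H' s)
      (AlmostAllArguments.result k r w hw D (2 * κ)).2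
  · intro M A _ _ _ _ _ Y Z hY hZ hs
    obtain ⟨s₀, hne⟩ := hs
    have hback : ∀ t, NearIterates t Y Z → AllRelations Y Z := fun t h => relations_of_near Y Z hY hZ s₀ hne h
    exact ⟨⟨all_of_relations Y Z, fun h => hback 0 (near_of_all Y Z h 0)⟩,
      fun t => ⟨fun h => near_of_all Y Z h t, fun h => all_of_relations Y Z (hback t h)⟩⟩

end Pool.Agent.Results.MP_a57f33_nt.CompositionValues
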