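import Mathlib
import Pool.Agent.D0H51.AP.Poly

/-!
# MP_a57f33_nt: relations between linearly many motivic multiple zeta values are in the stuffle ideal

A word is a nonempty list of letters `(a, v)`, pairs of integers; its index at `i` has the arguments `a + i v`, as in
`ζ(p + i, q - i)`, `ζ(p + i, t, q + 2 i)`. A lift of the real multiple zeta values is a function `Y` from the indices to a
commutative ring `M` with a homomorphism `M → ℝ` which maps `Y(u)` to `ζ(u)`, for example the motivic multiple zeta values with
the period map.

Theorem. Let `k`, `d`, `D`, `B`, `κ` be given. There are `δ > 0` and `P` such that for all `N ≥ P` and `W ≤ δ N`, all words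
`w_1, ..., w_k` of depth at most `d` whose arguments are in `[N, κ N]` and change by at most `δ N` for `0 ≤ i ≤ W`, all
polynomials `f_0, ..., f_W` with integer coefficients, of degree at most `D` with coefficients at most `B`, and all lifts `Y`:
every relation `∑_{0 ≤ i ≤ W} f_i(Y(w_1(i)), ..., Y(w_k(i))) = 0` is a consequence of the stuffle product formula: the polynomial
`∑_i f_i(X_(w_1(i)), ..., X_(w_k(i)))` in the variables `X_u`, `u` an index, is in the ideal (over the integers) generated by the
polynomials `X_u X_v - ∑_{w ∈ u * v} X_w`, `u` and `v` admissible. In particular (for `f_i` of degree one and a suitable set of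
words) there is no nontrivial linear relation with coefficients at most `B` between the motivic multiple zeta values of
linearly many (boundedly many progressions of) indices of depth at most `d` and arguments of the same size, of mixed depth and
weight. So for relations of this kind the answer to the question is yes, without the shuffle product.

The starting files on this page consider boundedly many indices, for almost all tuples of arguments; here the number of the
values grows linearly with the weight, and there is no exceptional set. For linearly many values in depth four and more nothing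
was known to me; in depth at most three all relations of motivic values are known.

Proof. The relation holds for the real values. The stuffle product gives a combination of real multiple zeta values of
boundedly many progressions of indices, with bounded coefficients. Consider an index (over tuples with entries `≥ 2`) of
minimal weight, up to `o(N)`, with a nonzero coefficient. The S-units of the tuples `x_1 > ... > x_r` of primes for this index
are not equivalent to those of other tuples and indices of at least this weight. For a suitable such tuple the sum of the terms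
of the nearby indices does not vanish: each progression is dominated by one of its ends, and for logarithms of primes from a
separated grid different ends have different sizes. The p-adic subspace theorem (starting library) gives a contradiction.
-/

set_option autoImplicit false

namespace Pool.Agent.Results.MP_a57f33_nt.LinearlyManyTerms

open Finset

/-- `trunc [s_1, ..., s_r] m` is the sum of `∏ n_i ^ (-s_i)` over `m > n_1 > ... > n_r ≥ 1` -/
noncomputable def trunc : List ℕ → ℕ → ℝ
  | [], _ => 1
  | s :: l, m => ∑ j ∈ Finset.Ico 1 m, trunc l j / (j : ℝ) ^ s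

/-- the real multiple zeta value `ζ(s_1, ..., s_r)`, `s_1` belongs to the largest variable -/
noncomputable def mzv : List ℕ → ℝ
  | [] => 1
  | s :: l => ∑' m : ℕ, trunc l (m + 1) / ((m + 1 : ℕ) : ℝ) ^ s

/-- admissible indices: `(s_1, ..., s_r)` with `r ≥ 1`, `s_1 ≥ 2` and all `s_i ≥ 1` -/
def AdmissibleIndex : List ℕ → Prop
  | [] => False
  | s :: l => 2 ≤ s ∧ ∀ t ∈ l, 1 ≤ t

/-- the list of the indices in the stuffle (series) product of two indices -/
def stuffles : List ℕ → List ℕ → List (List ℕ)
  | [], v => [v]
  | x :: u, [] => [x :: u]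
  | x :: u, y :: v =>
    (stuffles u (y :: v)).map (x :: ·) ++ (stuffles (x :: u) v).map (y :: ·) ++
      (stuffles u v).map ((x + y) :: ·)
termination_by k l => k.length + l.length

/-- the ideal generated by the stuffle product formulas, in the polynomial ring with variables `X_u`, `u` an index -/
noncomputable def stuffleIdeal : Ideal (MvPolynomial (List ℕ) ℤ) :=
  Ideal.span {g | ∃ u v : List ℕ, AdmissibleIndex u ∧ AdmissibleIndex v ∧
    g = MvPolynomial.X u * MvPolynomial.X v - ((stuffles u v).map MvPolynomial.X).sum}

/-- `Y` is a lift of the real multiple zeta values: a ring homomorphism maps `Y u` to the real number `ζ(u)`, for all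
admissible indices `u`; for example the motivic multiple zeta values and the period map -/
def Lift {M : Type} [CommRing M] (Y : List ℕ → M) : Prop :=
  ∃ per : M →+* ℝ, ∀ u, AdmissibleIndex u → per (Y u) = mzv u

/-- words: the letter `(a, v)` stands for the argument `a + i v` -/
abbrev Word : Type := List (ℤ × ℤ)

/-- the index with the arguments `a + i v` -/
def index (i : ℕ) (w : Word) : List ℕ := w.map fun y => (y.1 + (i : ℤ) * y.2).toNat

theorem trunc_eq : ∀ l m, trunc l m = Pool.Agent.D0H51.AP.trunc l m := by
  intro l
  induction l with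
  | nil => intro m; rw [trunc, Pool.Agent.D0H51.AP.trunc]
  | cons s l ih =>
    intro m
    rw [trunc, Pool.Agent.D0H51.AP.trunc]
    exact Finset.sum_congr rfl fun j _ => by rw [ih]

theorem mzv_eq : ∀ l, mzv l = Pool.Agent.D0H51.AP.mzv l := by
  intro l
  cases l with
  | nil => rw [mzv, Pool.Agent.D0H51.AP.mzv]
  | cons s l =>
    rw [mzv, Pool.Agent.D0H51.AP.mzv]
    exact tsum_congr fun k => by rw [trunc_eq]

theorem stuffles_eq : ∀ u v, stuffles u v = Pool.Agent.D0H51.AP.stg u v := by
  intro u v
  induction u, v using stuffles.induct with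
  | case1 v => rw [stuffles, Pool.Agent.D0H51.AP.stg]
  | case2 x u => rw [stuffles, Pool.Agent.D0H51.AP.stg]
  | case3 x u y v ih1 ih2 ih3 => rw [stuffles, Pool.Agent.D0H51.AP.stg, ih1, ih2, ih3]

theorem adm_of {u : List ℕ} (h : Pool.Agent.D0H51.AP.Ge2 u) : AdmissibleIndex u := by
  cases u with
  | nil => exact absurd rfl h.1
  | cons x u =>
    exact ⟨h.2 x List.mem_cons_self, fun y hy => by
      have := h.2 y (List.mem_cons_of_mem _ hy)
      omega⟩

theorem mk_stuffle (u v : List ℕ) (hu : AdmissibleIndex u) (hv : AdmissibleIndex v) :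
    Ideal.Quotient.mk stuffleIdeal (MvPolynomial.X u) * Ideal.Quotient.mk stuffleIdeal (MvPolynomial.X v) =
      ((stuffles u v).map fun w => Ideal.Quotient.mk stuffleIdeal (MvPolynomial.X w)).sum := by
  have h1 : MvPolynomial.X u * MvPolynomial.X v - ((stuffles u v).map MvPolynomial.X).sum ∈ stuffleIdeal :=
    Ideal.subset_span ⟨u, v, hu, hv, rfl⟩
  have h2 := Ideal.Quotient.eq_zero_iff_mem.2 h1
  rw [map_sub, map_mul, sub_eq_zero] at h2
  rw [h2, map_list_sum, List.map_map]
  rfl

/-- Let `k`, `d`, `D`, `B`, `κ` be natural numbers. There are `δ > 0` and a natural number `P` such that for all `N ≥ P`, all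
`W ≤ δ N`, all words `w_1, ..., w_k` of depth between `1` and `d` with arguments `a + i v ∈ [N, κ N]` for `0 ≤ i ≤ W` and
`W |v| ≤ δ N`, all integer polynomials `f_0, ..., f_W` in `k` variables of degree at most `D` with coefficients of absolute value
at most `B`, and all lifts `Y` of the real multiple zeta values: if `∑_i f_i(Y(w_1(i)), ..., Y(w_k(i))) = 0` then
`∑_i f_i(X_(w_1(i)), ..., X_(w_k(i)))` is in the stuffle ideal. -/
theorem result (k d D B κ : ℕ) : ∃ (δ : ℝ) (P : ℕ), 0 < δ ∧
    ∀ (N W : ℕ) (w : Fin k → Word) (f : ℕ → MvPolynomial (Fin k) ℤ), P ≤ N → (W : ℝ) ≤ δ * N →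
      (∀ l, w l ≠ [] ∧ (w l).length ≤ d) →
      (∀ l, ∀ y ∈ w l, (∀ i ≤ W, (N : ℤ) ≤ y.1 + i * y.2 ∧ y.1 + i * y.2 ≤ κ * N) ∧
        (W : ℝ) * |(y.2 : ℝ)| ≤ δ * N) →
      (∀ i ≤ W, (f i).totalDegree ≤ D ∧ ∀ e, |(f i).coeff e| ≤ (B : ℤ)) →
      ∀ (M : Type) [CommRing M] (Y : List ℕ → M), Lift Y →
        ∑ i ∈ range (W + 1), MvPolynomial.aeval (fun l => Y (index i (w l))) (f i) = 0 →
        ∑ i ∈ range (W + 1), MvPolynomial.aeval
          (fun l => (MvPolynomial.X (index i (w l)) : MvPolynomial (List ℕ) ℤ)) (f i) ∈ stuffleIdeal := by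
  obtain ⟨δ, C, P, hδ, hC, h⟩ := Pool.Agent.D0H51.AP.poly k d D B κ
  refine ⟨δ, max P 2, hδ, fun N W w f hPN hW hw hent hf M _ Y hY hrel => ?_⟩
  rw [max_le_iff] at hPN
  obtain ⟨hPN, hN2⟩ := hPN
  have hmz : mzv = Pool.Agent.D0H51.AP.mzv := funext mzv_eq
  have hval : ∀ l, ∀ y ∈ w l, ∀ i ≤ W, (((y.1 + i * y.2).toNat : ℕ) : ℤ) = y.1 + i * y.2 := by
    intro l y hy i hi
    rw [Int.toNat_of_nonneg]
    have h1 := ((hent l y hy).1 i hi).1
    have h2 : (0 : ℤ) ≤ N := Int.natCast_nonneg _
    omega
  -- the relation between the real values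
  have hreal : ∑ i ∈ range (W + 1), MvPolynomial.aeval (fun l => mzv (index i (w l))) (f i) = 0 := by
    obtain ⟨per, hper⟩ := hY
    have h1 := congrArg per hrel
    rw [map_zero, map_sum] at h1
    rw [← h1]
    refine sum_congr rfl fun i hi => ?_
    rw [mem_range] at hi
    have h2 : per (MvPolynomial.aeval (fun l => Y (index i (w l))) (f i)) =
        MvPolynomial.aeval (fun l => per (Y (index i (w l)))) (f i) := by
      have h3 := MvPolynomial.map_aeval (fun l => Y (index i (w l))) per (f i)
      have h4 : per.comp (algebraMap ℤ M) = algebraMap ℤ ℝ := RingHom.ext_int _ _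
      rw [h4] at h3
      exact h3
    rw [h2]
    congr 2
    funext l
    rw [hper]
    apply adm_of
    refine ⟨?_, fun x hx => ?_⟩
    · rw [index, Ne, List.map_eq_nil_iff]
      exact (hw l).1
    · rw [index, List.mem_map] at hx
      obtain ⟨y, hy, rfl⟩ := hx
      have h5 := ((hent l y hy).1 i (by omega)).1
      have h6 := hval l y hy i (by omega)
      omega
  -- the words of functions
  set w' : Fin k → List (ℕ → ℕ) := fun l => (w l).map fun (y : ℤ × ℤ) (i : ℕ) => (y.1 + (i : ℤ) * y.2).toNat
    with hw'
  have hidx : ∀ (i : ℕ) l, ((w' l).map fun x => x i) = index i (w l) := by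
    intro i l
    rw [hw', index, List.map_map]
    rfl
  have hmem : ∀ l, ∀ x ∈ w' l, ∃ y ∈ w l, ∀ i, x i = (y.1 + i * y.2).toNat := by
    intro l x hx
    rw [hw', List.mem_map] at hx
    obtain ⟨y, hy, rfl⟩ := hx
    exact ⟨y, hy, fun i => rfl⟩
  have key := h N W w' f hPN hW (fun l => by
      rw [hw', Ne, List.map_eq_nil_iff]
      exact (hw l).1) (fun l => by
      rw [hw', List.length_map]
      exact (hw l).2) (fun l x hx i hi => by
      obtain ⟨y, hy, hyx⟩ := hmem l x hx
      have h1 := (hent l y hy).1 i hi
      have h2 := hval l y hy i hi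
      rw [hyx]
      constructor
      · have h3 : (N : ℤ) ≤ (((y.1 + i * y.2).toNat : ℕ) : ℤ) := by rw [h2]; exact h1.1
        exact_mod_cast h3
      · have h3 : (((y.1 + i * y.2).toNat : ℕ) : ℤ) ≤ κ * N := by rw [h2]; exact h1.2
        exact_mod_cast h3) (fun l x hx => by
      obtain ⟨y, hy, hyx⟩ := hmem l x hx
      refine ⟨y.2, fun i hi => ?_⟩
      rw [hyx, hyx, hval l y hy i hi]
      have := hval l y hy 0 (Nat.zero_le _)
      rw [this]
      push_cast
      ring) (fun l x hx i hi j hj => by
      obtain ⟨y, hy, hyx⟩ := hmem l x hx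
      have h1 := (hent l y hy).2
      have h2 : (x i : ℝ) = y.1 + i * y.2 := by
        rw [hyx]
        exact_mod_cast hval l y hy i hi
      have h3 : (x j : ℝ) = y.1 + j * y.2 := by
        rw [hyx]
        exact_mod_cast hval l y hy j hj
      rw [h2, h3]
      have h4 : ((i : ℝ) - j) * y.2 ≤ W * |(y.2 : ℝ)| := by
        refine (le_abs_self _).trans ?_
        rw [abs_mul]
        apply mul_le_mul_of_nonneg_right _ (abs_nonneg _)
        rw [abs_le]
        have e1 : (i : ℝ) ≤ W := by exact_mod_cast hi
        have e2 : (j : ℝ) ≤ W := by exact_mod_cast hj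
        have e3 : (0 : ℝ) ≤ i := Nat.cast_nonneg _
        have e4 : (0 : ℝ) ≤ j := Nat.cast_nonneg _
        constructor <;> linarith
      linarith) (fun i hi => (hf i hi).1) (fun i hi => (hf i hi).2)
    (by
      simp only [hidx]
      rw [← hmz, hreal, abs_zero]
      positivity) (MvPolynomial (List ℕ) ℤ ⧸ stuffleIdeal)
    (fun u => Ideal.Quotient.mk stuffleIdeal (MvPolynomial.X u))
    (fun u v hu hv => by rw [mk_stuffle u v (adm_of hu) (adm_of hv), stuffles_eq])
  simp only [hidx] at key
  rw [← Ideal.Quotient.eq_zero_iff_mem, map_sum, ← key]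
  refine sum_congr rfl fun i _ => ?_
  have h3 := MvPolynomial.map_aeval (fun l => (MvPolynomial.X (index i (w l)) : MvPolynomial (List ℕ) ℤ))
    (Ideal.Quotient.mk stuffleIdeal) (f i)
  have h4 : (Ideal.Quotient.mk stuffleIdeal).comp (algebraMap ℤ (MvPolynomial (List ℕ) ℤ)) =
      algebraMap ℤ (MvPolynomial (List ℕ) ℤ ⧸ stuffleIdeal) := RingHom.ext_int _ _
  rw [h4] at h3
  exact h3

end Pool.Agent.Results.MP_a57f33_nt.LinearlyManyTerms
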